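import Mathlib
import Pool.Agent.Y922.NV.Stm

/-! Project NV: basic properties of the points. -/

set_option autoImplicit false

namespace Pool.Agent.Y235.NV

open Complex Pool.Agent.Y922.NV
open scoped Real

theorem geo (N : ℕ) : ∑ n ∈ Finset.range N, ((1 / 2 : ℝ)) ^ (n + 1) = 1 - (1 / 2) ^ N := by
  induction N with
  | zero => simp
  | succ N ih =>
    rw [Finset.sum_range_succ, ih, pow_succ]
    ring

theorem t_PTS : S_PTS := by
  intro j
  have hj : (0 : ℝ) ≤ (j : ℝ) := Nat.cast_nonneg j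
  refine ⟨?_, ?_, ?_, ?_⟩
  · refine ⟨Sum.inl 0, ?_⟩
    unfold idx
    rw [Finset.inl_mem_disjSum, Finset.mem_Icc]
    constructor <;> omega
  · intro i _
    rcases i with k | n
    · show (0 : ℝ) < 1 / (100 * ((j : ℝ) + 1) ^ 2)
      positivity
    · show (0 : ℝ) < (1 / 2) ^ (n + 1)
      positivity
  · unfold idx
    rw [Finset.sum_disjSum]
    have h1 : ∑ k ∈ Finset.Icc (-((j : ℤ) + 1)) ((j : ℤ) + 1), (pt j (Sum.inl k)).im ≤ 3 / 100 := by
      have h2 : ∀ k ∈ Finset.Icc (-((j : ℤ) + 1)) ((j : ℤ) + 1),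
          (pt j (Sum.inl k)).im = 1 / (100 * ((j : ℝ) + 1) ^ 2) := fun k _ => rfl
      rw [Finset.sum_congr rfl h2, Finset.sum_const, Int.card_Icc, nsmul_eq_mul]
      have h3 : ((j : ℤ) + 1 + 1 - -((j : ℤ) + 1)).toNat = 2 * j + 3 := by omega
      rw [h3, mul_one_div, div_le_div_iff₀ (by positivity) (by norm_num)]
      push_cast
      nlinarith
    have h4 : ∑ n ∈ Finset.range j.unpair.1, (pt j (Sum.inr n)).im ≤ 1 := by
      have h2 : ∀ n ∈ Finset.range j.unpair.1,
          (pt j (Sum.inr n)).im = (1 / 2 : ℝ) ^ (n + 1) := fun n _ => rfl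
      rw [Finset.sum_congr rfl h2, geo]
      have : (0 : ℝ) < (1 / 2) ^ j.unpair.1 := by positivity
      linarith
    linarith
  · intro x1 x2
    unfold theta
    rw [← Finset.sum_sub_distrib]
    unfold idx
    rw [Finset.sum_disjSum]
    congr 1
    · refine Finset.sum_congr rfl fun k _ => ?_
      show (π + 2 * Real.arctan ((x2 - (k : ℝ) / (j + 1)) / (1 / (100 * ((j : ℝ) + 1) ^ 2)))) -
        (π + 2 * Real.arctan ((x1 - (k : ℝ) / (j + 1)) / (1 / (100 * ((j : ℝ) + 1) ^ 2)))) = _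
      ring
    · refine Finset.sum_congr rfl fun n _ => ?_
      show (π + 2 * Real.arctan ((x2 - cen j) / (1 / 2) ^ (n + 1))) -
        (π + 2 * Real.arctan ((x1 - cen j) / (1 / 2) ^ (n + 1))) = _
      ring

end Pool.Agent.Y235.NV
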